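import Pool.Agent.ACK.StmtsB

/-!
# Squad ACK, row MNE (helper67)
-/

set_option autoImplicit false

namespace Pool.Agent.ACK.H67

open Pool.Agent.ACK Pool.Agent.ACK.B

theorem mne_core (hcrc : CrcStmt) (hpd : Pd2Stmt) (htri : TriStmt) {c : ℕ}
    {w : ZMod (2 * c) → ℕ} {s s0 : ℕ → Bool} (hc : 1 ≤ c) (hG : Gf w) (hP : PrF w)
    (hl : ∀ i, w i ≠ w (i + 1)) (hn : nc w s0 + nc w (op s0) = c + 2)
    (h4 : ∀ p q r t : ZMod (2 * c), [p, q, r, t].Nodup → ¬ (cl w s p = cl w s q ∧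
      cl w s p = cl w s r ∧ cl w s p = cl w s t)) (p : ZMod (2 * c))
    (hx : s (w p) = s0 (w p)) : s (w (p + 1)) = s0 (w (p + 1)) := by
  by_contra hy
  haveI : NeZero (2 * c) := ⟨by omega⟩
  obtain ⟨q, r, z, hqp, hrp, h1, h2, h3⟩ := htri (2 * c) w s hG hl h4 p
  have a1 : cl w s0 p = cl w s0 q :=
    ((hcrc _ w s0 s0).1 _ _ _ (((hcrc _ w s s0).2.1 _ _ _ h1).1 hx)).1
  have a2 : cl w (op s0) p = cl w (op s0) r :=
    ((hcrc _ w (op s0) s0).1 _ _ _ (((hcrc _ w s s0).2.1 _ _ _ h2).2 hy)).1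
  rcases h3 with rfl | ⟨_, h3⟩
  · exact hqp (hpd c w s0 hc hG hP hn p q a1 a2).symm
  · by_cases hz : s z = s0 z
    · have a3 : cl w s0 q = cl w s0 r :=
        ((hcrc _ w s0 s0).1 _ _ _ (((hcrc _ w s s0).2.1 _ _ _ h3).1 hz)).1
      exact hrp (hpd c w s0 hc hG hP hn p r (a1.trans a3) a2).symm
    · have a3 : cl w (op s0) q = cl w (op s0) r :=
        ((hcrc _ w (op s0) s0).1 _ _ _ (((hcrc _ w s s0).2.1 _ _ _ h3).2 hz)).1
      exact hqp (hpd c w s0 hc hG hP hn p q a1 (a2.trans a3.symm)).symm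

theorem mne (hcrc : CrcStmt) (hpd : Pd2Stmt) (htri : TriStmt) : MneStmt := by
  intro c w s s0 hc hG hP hl hn h4 p
  refine ⟨mne_core hcrc hpd htri hc hG hP hl hn h4 p, fun hy => ?_⟩
  by_contra hx
  have hoo : op (op s0) = s0 := (hcrc _ w s0 s0).2.2.2
  have hn' : nc w (op s0) + nc w (op (op s0)) = c + 2 := by
    rw [hoo, add_comm]
    exact hn
  have hx' : s (w p) = op s0 (w p) := by
    unfold op
    revert hx
    cases s (w p) <;> cases s0 (w p) <;> simp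
  have h := mne_core hcrc hpd htri hc hG hP hl hn' h4 p hx'
  rw [hy] at h
  unfold op at h
  revert h
  cases s0 (w (p + 1)) <;> simp

end Pool.Agent.ACK.H67
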